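import Mathlib
import Pool.Agent.R139.VDec
import Pool.Agent.R139.NestData

/-!
# A Koszul matroid Chow ring whose Hilbert series has a non-real zero
-/

set_option autoImplicit false

namespace Pool.Agent.Results.MP_0b1547_co.NonRealRooted

open MvPolynomial

/-- `𝒢` is a building set on the lattice of flats of the loopless matroid `M`: its members are
nonempty flats and for every nonempty flat `F`, with `G_j` the maximal members of `𝒢` below `F`,
the map `∏_j [∅, G_j] → [∅, F]` taking a family of flats to its join is a well-defined poset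
isomorphism. -/
structure IsBuildingSet {α : Type*} (M : Matroid α) (𝒢 : Set (Set α)) : Prop where
  flat : ∀ G ∈ 𝒢, M.IsFlat G ∧ G.Nonempty
  iso : ∀ F, M.IsFlat F → F.Nonempty →
    ∃ e : (∀ G : {G : Set α // Maximal (fun G' => G' ∈ 𝒢 ∧ G' ⊆ F) G},
        {H : Set α // M.IsFlat H ∧ H ⊆ G.1}) ≃o {H : Set α // M.IsFlat H ∧ H ⊆ F},
      ∀ h, (e h : Set α) = M.closure (⋃ G, (h G : Set α))

/-- `S` is nested: the join of two or more pairwise incomparable members of `S` is never in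
`𝒢`. -/
def IsNested {α : Type*} (M : Matroid α) (𝒢 S : Set (Set α)) : Prop :=
  ∀ T, T ⊆ S → T.Nontrivial → IsAntichain (· ⊆ ·) T → M.closure (⋃₀ T) ∉ 𝒢

/-- The atoms of the lattice of flats of a loopless matroid: minimal nonempty flats. -/
def IsAtomFlat {α : Type*} (M : Matroid α) (a : Set α) : Prop :=
  Minimal (fun F => M.IsFlat F ∧ F.Nonempty) a

/-- The defining ideal of the Chow ring of `(M, 𝒢)`. -/
noncomputable def chowIdeal {α : Type*} (M : Matroid α) (𝒢 : Set (Set α)) :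
    Ideal (MvPolynomial 𝒢 ℚ) :=
  Ideal.span ({f | ∃ S : Finset 𝒢, ¬ IsNested M 𝒢 (Subtype.val '' (S : Set 𝒢)) ∧
      f = ∏ G ∈ S, X G} ∪
    {f | ∃ a, IsAtomFlat M a ∧ f = ∑ᶠ G : {G : 𝒢 // a ⊆ (G : Set α)}, X G.1})

/-- The degree `n` part of `ℚ[V] / I`: the classes of the homogeneous polynomials of degree
`n`. -/
noncomputable def gradedPiece {V : Type*} (I : Ideal (MvPolynomial V ℚ)) (n : ℕ) :
    Submodule ℚ (MvPolynomial V ℚ ⧸ I) :=
  (homogeneousSubmodule V ℚ n).map (Ideal.Quotient.mkₐ ℚ I).toLinearMap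

/-- The ideal `A₊` of `A = ℚ[V] / I` generated by the variables. -/
noncomputable def augmentation {V : Type*} (I : Ideal (MvPolynomial V ℚ)) :
    Ideal (MvPolynomial V ℚ ⧸ I) :=
  Ideal.span (Set.range fun v => Ideal.Quotient.mk I (X v))

/-- `A = ℚ[V] / I` is Koszul: `A / A₊` has a free resolution
`⋯ → A^{β 2} → A^{β 1} → A^{β 0} = A → A / A₊ → 0` whose maps are given by matrices with all
entries in `A₁`. -/
def IsKoszul {V : Type*} (I : Ideal (MvPolynomial V ℚ)) : Prop :=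
  ∃ (β : ℕ → ℕ) (d : ∀ i, Matrix (Fin (β i)) (Fin (β (i + 1))) (MvPolynomial V ℚ ⧸ I)),
    β 0 = 1 ∧
    (∀ i a b, d i a b ∈ gradedPiece I 1) ∧
    (∀ x : Fin (β 0) → MvPolynomial V ℚ ⧸ I,
      (∃ y, (d 0).mulVec y = x) ↔ ∀ a, x a ∈ augmentation I) ∧
    ∀ i x, (d i).mulVec x = 0 ↔ ∃ y, (d (i + 1)).mulVec y = x

/-! ### The example -/

open Pool.Agent.R139.GrQuot Pool.Agent.R139.VDec Pool.Agent.R139.NestData

/-- subsets from bit masks -/
def st (m : ℕ) : Set (Fin 7) := {a | m.testBit a = true}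

theorem mem_st {m : ℕ} {a : Fin 7} : a ∈ st m ↔ m.testBit a = true := Iff.rfl

theorem st_or (m n : ℕ) : st (m ||| n) = st m ∪ st n := by
  ext a
  rw [mem_st, Nat.testBit_or, Bool.or_eq_true]
  rfl

theorem st_and (m n : ℕ) : st (m &&& n) = st m ∩ st n := by
  ext a
  rw [mem_st, Nat.testBit_and, Bool.and_eq_true]
  rfl

theorem st_inj {m n : ℕ} (hm : m < 2 ^ 7) (hn : n < 2 ^ 7) (h : st m = st n) : m = n := by
  apply Nat.eq_of_testBit_eq
  intro i
  by_cases hi : i < 7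
  · have h1 := Set.ext_iff.1 h ⟨i, hi⟩
    rw [mem_st, mem_st] at h1
    exact Bool.eq_iff_iff.2 h1
  · rw [Nat.testBit_lt_two_pow (lt_of_lt_of_le hm (Nat.pow_le_pow_right (by norm_num) (by omega))),
      Nat.testBit_lt_two_pow (lt_of_lt_of_le hn (Nat.pow_le_pow_right (by norm_num) (by omega)))]

theorem st_single (a : Fin 7) : st (2 ^ (a : ℕ)) = {a} := by
  ext c
  rw [mem_st, Nat.testBit_two_pow, decide_eq_true_iff, Set.mem_singleton_iff]
  exact ⟨fun h => Fin.ext h.symm, fun h => by rw [h]⟩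

theorem st_subset {m n : ℕ} (hm : m < 2 ^ 7) : st m ⊆ st n ↔ m &&& n = m := by
  constructor
  · intro h
    apply st_inj (lt_of_le_of_lt Nat.and_le_left hm) hm
    rw [st_and, Set.inter_eq_left]
    exact h
  · intro h
    rw [← Set.inter_eq_left, ← st_and, h]

/-- the building set -/
def 𝒢 : Set (Set (Fin 7)) := Set.range fun i : Fin 18 => st (b i)

/-- the matroid -/
def M : Matroid (Fin 7) := Matroid.freeOn Set.univ

theorem closure_M (X : Set (Fin 7)) : M.closure X = X := by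
  rw [M, Matroid.freeOn_closure_eq, Set.inter_univ]

theorem isFlat_M (X : Set (Fin 7)) : M.IsFlat X := by
  rw [Matroid.isFlat_iff_closure_eq, closure_M]

theorem loopless_M : M.Loopless := by
  rw [Matroid.loopless_iff_forall_not_isLoop]
  intro e _
  exact Matroid.freeOn_not_isLoop _ e

theorem stb_inj {i j : Fin 18} (h : st (b i) = st (b j)) : i = j :=
  b_inj i j (st_inj (b_lt i) (b_lt j) h)

theorem mem_𝒢 (i : Fin 18) : st (b i) ∈ 𝒢 := ⟨i, rfl⟩

theorem single_mem (a : Fin 7) : {a} ∈ 𝒢 := by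
  obtain ⟨i, hi⟩ := b_single a
  exact ⟨i, by rw [← st_single, ← hi]⟩

theorem union_mem {G H : Set (Fin 7)} (hG : G ∈ 𝒢) (hH : H ∈ 𝒢) (h : (G ∩ H).Nonempty) :
    G ∪ H ∈ 𝒢 := by
  obtain ⟨i, rfl⟩ := hG
  obtain ⟨j, rfl⟩ := hH
  have h1 : b i &&& b j ≠ 0 := by
    intro h0
    change (st (b i) ∩ st (b j)).Nonempty at h
    rw [← st_and, h0] at h
    obtain ⟨a, ha⟩ := h
    rw [mem_st, Nat.zero_testBit] at ha
    exact absurd ha (by decide)
  obtain ⟨k, hk⟩ := b_union i j h1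
  exact ⟨k, by change st (b k) = st (b i) ∪ st (b j); rw [hk, st_or]⟩

/-- Union-closed families containing the singletons are building sets for the free matroid. -/
theorem building : IsBuildingSet M 𝒢 where
  flat := by
    rintro _ ⟨i, rfl⟩
    obtain ⟨a, ha⟩ := b_pos i
    exact ⟨isFlat_M _, a, ha⟩
  iso := by
    classical
    intro F _ _
    have hdis : ∀ G G' : {G : Set (Fin 7) // Maximal (fun G' => G' ∈ 𝒢 ∧ G' ⊆ F) G},
        ∀ a, a ∈ G.1 → a ∈ G'.1 → G = G' := by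
      intro G G' a ha ha'
      have h1 : G.1 ∪ G'.1 ∈ 𝒢 ∧ G.1 ∪ G'.1 ⊆ F :=
        ⟨union_mem G.2.1.1 G'.2.1.1 ⟨a, ha, ha'⟩, Set.union_subset G.2.1.2 G'.2.1.2⟩
      have h2 : G.1 = G.1 ∪ G'.1 := G.2.eq_of_subset h1 Set.subset_union_left
      have h3 : G'.1 = G.1 ∪ G'.1 := G'.2.eq_of_subset h1 Set.subset_union_right
      exact Subtype.ext (h2.trans h3.symm)
    have hcov : ∀ a ∈ F, ∃ G : {G : Set (Fin 7) // Maximal (fun G' => G' ∈ 𝒢 ∧ G' ⊆ F) G},
        a ∈ G.1 := by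
      intro a ha
      obtain ⟨G, hG, hmax⟩ := (Set.toFinite {G' : Set (Fin 7) | G' ∈ 𝒢 ∧ G' ⊆ F}).exists_le_maximal
        (a := {a}) ⟨single_mem a, Set.singleton_subset_iff.2 ha⟩
      exact ⟨⟨G, hmax⟩, hG rfl⟩
    let f : (∀ G : {G : Set (Fin 7) // Maximal (fun G' => G' ∈ 𝒢 ∧ G' ⊆ F) G},
        {H : Set (Fin 7) // M.IsFlat H ∧ H ⊆ G.1}) → {H : Set (Fin 7) // M.IsFlat H ∧ H ⊆ F} :=
      fun h => ⟨⋃ G, (h G : Set (Fin 7)), isFlat_M _,
        Set.iUnion_subset fun G => (h G).2.2.trans G.2.1.2⟩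
    let g : {H : Set (Fin 7) // M.IsFlat H ∧ H ⊆ F} →
        (∀ G : {G : Set (Fin 7) // Maximal (fun G' => G' ∈ 𝒢 ∧ G' ⊆ F) G},
        {H : Set (Fin 7) // M.IsFlat H ∧ H ⊆ G.1}) :=
      fun K G => ⟨K.1 ∩ G.1, isFlat_M _, Set.inter_subset_right⟩
    have hgf : ∀ h, g (f h) = h := by
      intro h
      funext G
      apply Subtype.ext
      change (⋃ G, (h G : Set (Fin 7))) ∩ G.1 = (h G : Set (Fin 7))
      ext a
      constructor
      · rintro ⟨h1, h2⟩
        obtain ⟨G', h1⟩ := Set.mem_iUnion.1 h1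
        have h3 := hdis G' G a ((h G').2.2 h1) h2
        rw [h3] at h1
        exact h1
      · intro h1
        exact ⟨Set.mem_iUnion.2 ⟨G, h1⟩, (h G).2.2 h1⟩
    have hfg : ∀ K, f (g K) = K := by
      intro K
      apply Subtype.ext
      change (⋃ G : {G : Set (Fin 7) // Maximal (fun G' => G' ∈ 𝒢 ∧ G' ⊆ F) G}, K.1 ∩ G.1) = K.1
      ext a
      constructor
      · intro h1
        obtain ⟨G', h1⟩ := Set.mem_iUnion.1 h1
        exact h1.1
      · intro h1
        obtain ⟨G, hG⟩ := hcov a (K.2.2 h1)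
        exact Set.mem_iUnion.2 ⟨G, h1, hG⟩
    refine ⟨{ toFun := f, invFun := g, left_inv := hgf, right_inv := hfg, map_rel_iff' := ?_ },
      fun h => (closure_M _).symm⟩
    intro h h'
    constructor
    · intro hle G
      have h1 := hgf h
      have h2 := hgf h'
      rw [← h1, ← h2]
      exact Set.inter_subset_inter_left _ hle
    · intro hle
      exact Set.iUnion_mono fun G => hle G

/-- index of the members of the building set -/
noncomputable def en : Fin 18 ≃ 𝒢 :=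
  Equiv.ofBijective (fun i => ⟨st (b i), mem_𝒢 i⟩)
    ⟨fun i j h => stb_inj (congrArg Subtype.val h), by
      rintro ⟨_, i, rfl⟩
      exact ⟨i, rfl⟩⟩

theorem en_val (i : Fin 18) : (en i).1 = st (b i) := rfl

/-- the points -/
def PT : Type := {m : ℕ // m ∈ pts.toFinset}

noncomputable instance : Fintype PT := inferInstanceAs (Fintype {m : ℕ // m ∈ pts.toFinset})

theorem card_PT : Fintype.card PT = 161 := by
  have h : Fintype.card PT = pts.toFinset.card := Fintype.card_coe _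
  rw [h, List.toFinset_card_of_nodup pts_nodup, pts_card]

/-- coordinates of the points -/
noncomputable def pt (p : PT) (G : 𝒢) : ℚ := (co p.1 (en.symm G) : ℚ)

theorem pt_en (p : PT) (i : Fin 18) : pt p (en i) = (co p.1 i : ℚ) := by
  rw [pt, Equiv.symm_apply_apply]

theorem PT_mem (p : PT) : p.1 ∈ pts := List.mem_toFinset.1 p.2

theorem pt_inj : Function.Injective pt := by
  intro p q h
  have h1 := List.all_eq_true.1 (List.all_eq_true.1 pts_sep p.1 (PT_mem p)) q.1 (PT_mem q)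
  rw [Bool.or_eq_true, List.any_eq_true] at h1
  rcases h1 with h1 | ⟨i, hi, h1⟩
  · exact Subtype.ext (eq_of_beq h1)
  · exfalso
    rw [List.mem_range] at hi
    have h2 := congrFun h (en ⟨i, hi⟩)
    rw [pt_en, pt_en, Int.cast_inj] at h2
    rw [Bool.not_eq_true', beq_eq_false_iff_ne] at h1
    exact h1 h2

theorem isAtom_iff (a : Set (Fin 7)) : IsAtomFlat M a ↔ ∃ c : Fin 7, a = {c} := by
  constructor
  · intro h
    obtain ⟨c, hc⟩ := h.1.2
    exact ⟨c, (h.eq_of_subset ⟨isFlat_M _, Set.singleton_nonempty c⟩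
      (Set.singleton_subset_iff.2 hc)).symm⟩
  · rintro ⟨c, rfl⟩
    refine ⟨⟨isFlat_M _, Set.singleton_nonempty c⟩, ?_⟩
    rintro K ⟨-, hK⟩ hle
    rcases Set.subset_singleton_iff_eq.1 hle with h | h
    · exact absurd h hK.ne_empty
    · rw [h]

/-- the generators -/
def gens : Set (MvPolynomial 𝒢 ℚ) :=
  {f | ∃ S : Finset 𝒢, ¬ IsNested M 𝒢 (Subtype.val '' (S : Set 𝒢)) ∧ f = ∏ G ∈ S, X G} ∪
    {f | ∃ a, IsAtomFlat M a ∧ f = ∑ᶠ G : {G : 𝒢 // a ⊆ (G : Set (Fin 7))}, X G.1}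

theorem chowIdeal_eq : chowIdeal M 𝒢 = Ideal.span gens := rfl

instance : Finite 𝒢 := Finite.of_equiv _ en

theorem lin_eq (c : Fin 7) :
    (∑ᶠ G : {G : 𝒢 // {c} ⊆ (G : Set (Fin 7))}, (X G.1 : MvPolynomial 𝒢 ℚ)) =
      ∑ i ∈ Finset.range 18, if (b i).testBit c then
        (if h : i < 18 then X (en ⟨i, h⟩) else 0) else 0 := by
  classical
  have := Fintype.ofFinite 𝒢
  rw [finsum_eq_sum_of_fintype, Finset.sum_range]
  have h1 : ∑ G : {G : 𝒢 // {c} ⊆ (G : Set (Fin 7))}, (X G.1 : MvPolynomial 𝒢 ℚ) =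
      ∑ G : 𝒢, if {c} ⊆ (G : Set (Fin 7)) then (X G : MvPolynomial 𝒢 ℚ) else 0 := by
    rw [← Finset.sum_filter]
    symm
    apply Finset.sum_subtype
    intro G
    simp
  rw [h1, ← Equiv.sum_comp en]
  refine Finset.sum_congr rfl fun i _ => ?_
  rw [dif_pos i.2]
  have h2 : {c} ⊆ ((en i : 𝒢) : Set (Fin 7)) ↔ (b i).testBit c = true := by
    rw [Set.singleton_subset_iff, en_val, mem_st]
  simp only [h2]

theorem sum_map_range (f : ℕ → ℤ) (n : ℕ) :
    ((List.range n).map f).sum = ∑ i ∈ Finset.range n, f i := by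
  induction n with
  | zero => rfl
  | succ n ih => rw [List.range_succ, List.map_append, List.sum_append, ih, Finset.sum_range_succ,
      List.map_singleton, List.sum_singleton]

theorem gens_ok : GenOK pt gens := by
  classical
  rintro f (⟨S, hS, rfl⟩ | ⟨a, ha, rfl⟩)
  · refine ⟨∑ G ∈ S, 1, IsHomogeneous.prod _ _ _ fun G _ => isHomogeneous_X ℚ G, Or.inl ?_⟩
    funext p
    rw [ev_apply, map_prod, Pi.zero_apply]
    by_contra hne
    apply hS
    have hne' : ∀ G ∈ S, pt p G ≠ 0 := by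
      intro G hG h0
      apply hne
      apply Finset.prod_eq_zero hG
      rw [eval_X, h0]
    intro T hT hnt hanti hmem
    rw [closure_M] at hmem
    obtain ⟨k, hk⟩ := hmem
    have h1 := List.all_eq_true.1 (List.all_eq_true.1 pts_nest p.1 (PT_mem p)) k
      (List.mem_range.2 k.2)
    rw [List.any_eq_true] at h1
    obtain ⟨a, ha, h1⟩ := h1
    rw [List.mem_range] at ha
    rw [Bool.and_eq_true] at h1
    obtain ⟨hka, h1⟩ := h1
    have ha' : (⟨a, ha⟩ : Fin 7) ∈ ⋃₀ T := by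
      rw [← hk]
      exact hka
    obtain ⟨G, hGT, haG⟩ := ha'
    obtain ⟨G', hG'S, hG'⟩ := hT hGT
    obtain ⟨j, rfl⟩ := en.surjective G'
    rw [en_val] at hG'
    have h2 := List.all_eq_true.1 h1 j (List.mem_range.2 j.2)
    rw [Bool.or_eq_true, Bool.or_eq_true, Bool.or_eq_true] at h2
    rcases h2 with ((h2 | h2) | h2) | h2
    · apply hne' _ hG'S
      rw [pt_en, eq_of_beq h2, Int.cast_zero]
    · rw [Bool.not_eq_true', beq_eq_false_iff_ne] at h2
      apply h2
      rw [← st_subset (b_lt j), hG']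
      change G ⊆ (fun i : Fin 18 => st (b i)) k
      rw [hk]
      exact Set.subset_sUnion_of_mem hGT
    · -- `G` is the whole union
      have h3 : G = ⋃₀ T := by
        rw [← hG', eq_of_beq h2, ← hk]
      obtain ⟨G2, hG2, hne2⟩ := hnt.exists_ne G
      apply hanti hG2 hGT hne2
      rw [h3]
      exact Set.subset_sUnion_of_mem hG2
    · rw [Bool.not_eq_true'] at h2
      rw [← hG', mem_st, h2] at haG
      exact absurd haG (by decide)
  · obtain ⟨c, rfl⟩ := (isAtom_iff a).1 ha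
    refine ⟨1, ?_, Or.inr ⟨le_rfl, (c : ℚ) + 1, ?_⟩⟩
    · rw [lin_eq]
      refine IsHomogeneous.sum _ _ _ fun i hi => ?_
      split_ifs with h1 h2
      · exact isHomogeneous_X ℚ _
      · exact isHomogeneous_zero _ _ _
      · exact isHomogeneous_zero _ _ _
    · funext p
      rw [ev_apply, lin_eq, map_sum]
      have h1 := List.all_eq_true.1 (List.all_eq_true.1 pts_sum p.1 (PT_mem p)) c
        (List.mem_range.2 c.2)
      have h2 := eq_of_beq h1
      rw [sum_map_range] at h2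
      have h3 := congrArg (Int.cast : ℤ → ℚ) h2
      push_cast at h3
      rw [Pi.smul_apply, Pi.one_apply, smul_eq_mul, mul_one, ← h3]
      refine Finset.sum_congr rfl fun i hi => ?_
      rw [Finset.mem_range] at hi
      cases hb : (b i).testBit c with
      | false => simp
      | true =>
        rw [if_pos rfl, dif_pos hi, eval_X, pt_en, cond_true]

/-- the generators of the Chow ring -/
noncomputable def xx (i : ℕ) : MvPolynomial 𝒢 ℚ ⧸ Ideal.span gens :=
  Ideal.Quotient.mk _ (if h : i < 18 then X (en ⟨i, h⟩) else 0)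

theorem sit : Sit (Ideal.span gens) xx b nb 7 18 where
  hom := gens_ok.isHom
  deg := by
    intro i hi
    rw [xx, dif_pos hi]
    exact X_mem_gr _
  zero := by
    classical
    intro v w hv hw h
    obtain ⟨h1, h2, k, hk⟩ := nb_non ⟨v, hv⟩ ⟨w, hw⟩ h
    rw [xx, xx, dif_pos hv, dif_pos hw, ← map_mul, Ideal.Quotient.eq_zero_iff_mem]
    apply Ideal.subset_span
    left
    have hne : st (b v) ≠ st (b w) := by
      intro h3
      have h4 := st_inj (b_lt ⟨v, hv⟩) (b_lt ⟨w, hw⟩) h3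
      apply h1
      change b v = b w at h4
      change b v &&& b w = b v
      rw [← h4, Nat.and_self]
    have hne' : en ⟨v, hv⟩ ≠ en ⟨w, hw⟩ := fun h3 => hne (congrArg Subtype.val h3)
    refine ⟨{en ⟨v, hv⟩, en ⟨w, hw⟩}, ?_, ?_⟩
    · intro hn
      refine hn {st (b v), st (b w)} ?_ ⟨st (b v), by simp, st (b w), by simp, hne⟩ ?_ ?_
      · rintro _ (rfl | rfl)
        · exact ⟨en ⟨v, hv⟩, by simp, rfl⟩
        · exact ⟨en ⟨w, hw⟩, by simp, rfl⟩
      · rintro _ (rfl | rfl) _ (rfl | rfl) h3 h4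
        · exact h3 rfl
        · exact h1 ((st_subset (b_lt ⟨v, hv⟩)).1 h4)
        · apply h2
          rw [Nat.and_comm]
          exact (st_subset (b_lt ⟨w, hw⟩)).1 h4
        · exact h3 rfl
      · rw [closure_M, Set.sUnion_pair, ← st_or]
        exact ⟨k, congrArg st hk⟩
    · rw [Finset.prod_pair hne']
  lin := by
    intro a ha
    have h1 : Ideal.Quotient.mk (Ideal.span gens)
        (∑ᶠ G : {G : 𝒢 // {(⟨a, ha⟩ : Fin 7)} ⊆ (G : Set (Fin 7))},
          (X G.1 : MvPolynomial 𝒢 ℚ)) = 0 := by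
      rw [Ideal.Quotient.eq_zero_iff_mem]
      apply Ideal.subset_span
      right
      exact ⟨_, (isAtom_iff _).2 ⟨_, rfl⟩, rfl⟩
    rw [lin_eq, map_sum] at h1
    refine Eq.trans (Finset.sum_congr rfl fun i _ => ?_) h1
    rw [xx]
    split_ifs
    · rfl
    · rfl
    · exact (map_zero _).symm
  gen := by
    rw [irr]
    congr 1
    ext y
    constructor
    · rintro ⟨G, rfl⟩
      obtain ⟨i, rfl⟩ := en.surjective G
      refine ⟨i, i.2, ?_⟩
      rw [xx, dif_pos i.2]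
    · rintro ⟨i, hi, rfl⟩
      refine ⟨en ⟨i, hi⟩, ?_⟩
      rw [xx, dif_pos hi]

theorem sum_hilb : ([1, 11, 39, 59, 39, 11, 1] : List ℕ).sum = Fintype.card PT := by
  rw [card_PT]
  rfl

theorem koszul_and_hilb : IsKoszul (chowIdeal M 𝒢) ∧
    Module.Finite ℚ (MvPolynomial 𝒢 ℚ ⧸ chowIdeal M 𝒢) ∧
    ∀ n, Module.finrank ℚ (gradedPiece (chowIdeal M 𝒢) n) =
      ([1, 11, 39, 59, 39, 11, 1] : List ℕ).getD n 0 :=
  main sit pt_inj gens_ok chkT_tab full_testBit look_full sum_hilb chk_chains facet_mem tri_facet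

/-- the Hilbert series -/
noncomputable def hilb : Polynomial ℚ :=
  1 + 11 * Polynomial.X + 39 * Polynomial.X ^ 2 + 59 * Polynomial.X ^ 3 + 39 * Polynomial.X ^ 4 +
    11 * Polynomial.X ^ 5 + Polynomial.X ^ 6

theorem hilb_coeff (n : ℕ) :
    (([1, 11, 39, 59, 39, 11, 1] : List ℕ).getD n 0 : ℚ) = hilb.coeff n := by
  have h11 : (11 : Polynomial ℚ) = Polynomial.C 11 := rfl
  have h39 : (39 : Polynomial ℚ) = Polynomial.C 39 := rfl
  have h59 : (59 : Polynomial ℚ) = Polynomial.C 59 := rfl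
  rw [hilb, h11, h39, h59]
  simp only [Polynomial.coeff_add, Polynomial.coeff_C_mul, Polynomial.coeff_X_pow,
    Polynomial.coeff_X, Polynomial.coeff_one]
  rcases n with _ | _ | _ | _ | _ | _ | _ | n <;> simp

theorem nonreal_cubic : ∃ w : ℂ, w.im ≠ 0 ∧ w ^ 3 + 11 * w ^ 2 + 36 * w + 37 = 0 := by
  have hdeg : (Polynomial.X ^ 3 + Polynomial.C 11 * Polynomial.X ^ 2 +
      Polynomial.C 36 * Polynomial.X + Polynomial.C 37 : Polynomial ℂ).degree = 3 := by
    compute_degree!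
  obtain ⟨w, hw⟩ := IsAlgClosed.exists_root (Polynomial.X ^ 3 +
    Polynomial.C 11 * Polynomial.X ^ 2 + Polynomial.C 36 * Polynomial.X +
    Polynomial.C 37 : Polynomial ℂ) (by rw [hdeg]; norm_num)
  rw [Polynomial.IsRoot, Polynomial.eval_add, Polynomial.eval_add, Polynomial.eval_add,
    Polynomial.eval_mul, Polynomial.eval_mul, Polynomial.eval_C, Polynomial.eval_C,
    Polynomial.eval_C, Polynomial.eval_pow, Polynomial.eval_pow, Polynomial.eval_X] at hw
  by_cases him : w.im = 0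
  · obtain ⟨r, rfl⟩ : ∃ r : ℝ, w = (r : ℂ) :=
      ⟨w.re, Complex.ext (by rw [Complex.ofReal_re]) (by rw [Complex.ofReal_im, him])⟩
    have hr : r ^ 3 + 11 * r ^ 2 + 36 * r + 37 = 0 := by exact_mod_cast hw
    have hpos : 0 < 3 * r ^ 2 + 22 * r + 23 := by
      have h1 : (3 * r ^ 2 + 22 * r + 23) * (3 * r ^ 2 + 22 * r + 36) ^ 2 = 23 := by
        linear_combination (805 + 972 * r + 297 * r ^ 2 + 27 * r ^ 3) * hr
      by_contra hcon
      have h2 := mul_nonneg (neg_nonneg.2 (not_lt.1 hcon))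
        (sq_nonneg (3 * r ^ 2 + 22 * r + 36))
      linarith
    have hs := Real.sq_sqrt hpos.le
    have hs0 := Real.sqrt_pos.2 hpos
    generalize Real.sqrt (3 * r ^ 2 + 22 * r + 23) = s at hs hs0
    have hsC : (s : ℂ) ^ 2 = 3 * (r : ℂ) ^ 2 + 22 * r + 23 := by exact_mod_cast hs
    refine ⟨((-(11 + r) / 2 : ℝ) : ℂ) + ((s / 2 : ℝ) : ℂ) * Complex.I, ?_, ?_⟩
    · rw [Complex.add_im, Complex.ofReal_im, Complex.im_ofReal_mul, Complex.I_im]
      intro h
      linarith
    · push_cast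
      have hI := Complex.I_sq
      generalize Complex.I = J at hI
      have h1 : (-(11 + (r : ℂ)) / 2 + s / 2 * J) ^ 2 +
          (11 + r) * (-(11 + (r : ℂ)) / 2 + s / 2 * J) + (36 + 11 * r + (r : ℂ) ^ 2) = 0 := by
        linear_combination (s : ℂ) ^ 2 / 4 * hI - hsC / 4
      linear_combination (-(11 + (r : ℂ)) / 2 + s / 2 * J - r) * h1 + hw
  · exact ⟨w, him, hw⟩

theorem nonreal_root : ∃ z : ℂ, z.im ≠ 0 ∧ Polynomial.aeval z hilb = 0 := by
  obtain ⟨w, hw, hroot⟩ := nonreal_cubic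
  obtain ⟨s, hs⟩ := IsAlgClosed.exists_pow_nat_eq (w ^ 2 - 4) (n := 2) (by norm_num)
  obtain ⟨z, hz⟩ : ∃ z : ℂ, w * z = z ^ 2 + 1 :=
    ⟨(w + s) / 2, by linear_combination -hs / 4⟩
  refine ⟨z, ?_, ?_⟩
  · intro him
    have h1 := congrArg Complex.im hz
    have h2 := congrArg Complex.re hz
    simp only [Complex.mul_im, Complex.mul_re, Complex.add_im, Complex.add_re, Complex.one_im,
      Complex.one_re, pow_two, him, mul_zero, zero_mul, add_zero, sub_zero, zero_add] at h1 h2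
    rcases mul_eq_zero.1 h1 with h3 | h3
    · exact hw h3
    · rw [h3] at h2
      norm_num at h2
  · have hg : (w * z) ^ 3 + 11 * (w * z) ^ 2 * z + 36 * (w * z) * z ^ 2 + 37 * z ^ 3 = 0 := by
      linear_combination z ^ 3 * hroot
    rw [hz] at hg
    rw [hilb]
    simp only [map_add, map_mul, map_pow, Polynomial.aeval_X, map_one, map_ofNat]
    linear_combination hg

/-- There are a loopless matroid `M` and a building set `𝒢` on its lattice of flats such that the
Chow ring of `(M, 𝒢)` is Koszul and its Hilbert series has a non-real zero. -/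
theorem result : ∃ (M : Matroid (Fin 7)) (𝒢 : Set (Set (Fin 7))), M.Loopless ∧
    IsBuildingSet M 𝒢 ∧ IsKoszul (chowIdeal M 𝒢) ∧
    Module.Finite ℚ (MvPolynomial 𝒢 ℚ ⧸ chowIdeal M 𝒢) ∧
    ∃ H : Polynomial ℚ,
      (∀ i, (Module.finrank ℚ (gradedPiece (chowIdeal M 𝒢) i) : ℚ) = H.coeff i) ∧
      ∃ z : ℂ, z.im ≠ 0 ∧ Polynomial.aeval z H = 0 := by
  obtain ⟨h1, h2, h3⟩ := koszul_and_hilb
  exact ⟨M, 𝒢, loopless_M, building, h1, h2, hilb, fun i => by rw [h3, hilb_coeff], nonreal_root⟩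

end Pool.Agent.Results.MP_0b1547_co.NonRealRooted
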